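import Mathlib

/-!
Definitions: deformations of a unital associative algebra over a finite-dimensional local
commutative algebra `R` (so that completed tensor products are tensor products), their
equivalence, module algebras over a bialgebra and universal deformation formulas.
-/

open scoped TensorProduct

namespace Q12.UDF

universe u v w

section Deformations

variable (k : Type u) [Field k] (R : Type u) [CommRing R] [Algebra k R]
variable (A : Type v) [Ring A] [Algebra k A]

/-- An `R`-bilinear multiplication on `R ⊗ A`. -/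
abbrev Mult : Type (max u v) := (R ⊗[k] A) →ₗ[R] (R ⊗[k] A) →ₗ[R] (R ⊗[k] A)

variable {k R A}

/-- `m` is an `R`-deformation of the unital associative algebra `A`: an `R`-bilinear associative
multiplication on `R ⊗ A` with unit `1 ⊗ 1` which reduces to the multiplication of `A` modulo the
ideal `I` (the maximal ideal of `R`). -/
structure IsDeformation (I : Ideal R) (m : Mult k R A) : Prop where
  assoc : ∀ x y z : R ⊗[k] A, m (m x y) z = m x (m y z)
  one_left : ∀ x : R ⊗[k] A, m (1 ⊗ₜ 1) x = x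
  one_right : ∀ x : R ⊗[k] A, m x (1 ⊗ₜ 1) = x
  reduces : ∀ a b : A,
    m (1 ⊗ₜ a) (1 ⊗ₜ b) - 1 ⊗ₜ (a * b) ∈ I • (⊤ : Submodule R (R ⊗[k] A))

/-- Two `R`-bilinear multiplications on `R ⊗ A` are equivalent if an `R`-linear automorphism of
`R ⊗ A` which is the identity modulo `I` carries one to the other. -/
def Equivalent (I : Ideal R) (m m' : Mult k R A) : Prop :=
  ∃ φ : (R ⊗[k] A) ≃ₗ[R] (R ⊗[k] A),
    (∀ x, φ x - x ∈ I • (⊤ : Submodule R (R ⊗[k] A))) ∧ ∀ x y, φ (m x y) = m' (φ x) (φ y)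

end Deformations

section Bialgebras

variable (k : Type u) [Field k] (R : Type u) [CommRing R] [Algebra k R]
variable (B : Type w) [Ring B] [Bialgebra k B] (A : Type v) [Ring A] [Algebra k A]

/-- The linear map `B ⊗ B → A`, `b ⊗ c ↦ (b • a) (c • a')`, for a linear action of `B` on `A` and
elements `a`, `a'` of `A`. -/
def pairAct {k B A} [Field k] [Ring B] [Bialgebra k B] [Ring A] [Algebra k A]
    (act : B →ₗ[k] Module.End k A) (a a' : A) : B ⊗[k] B →ₗ[k] A :=
  TensorProduct.lift ((LinearMap.mul k A).compl₁₂ (act.flip a) (act.flip a'))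

/-- A `B`-module algebra structure on `A`: a unital action of the algebra `B` on the vector space
`A` with `b • (a a') = ∑ (b₁ • a) (b₂ • a')` and `b • 1 = ε(b) 1`. -/
structure ModuleAlgebra where
  /-- the action -/
  act : B →ₐ[k] Module.End k A
  act_mul : ∀ (b : B) (a a' : A),
    act b (a * a') = pairAct act.toLinearMap a a' (Coalgebra.comul (R := k) b)
  act_one : ∀ b : B, act b 1 = Coalgebra.counit (R := k) b • (1 : A)

/-- `Δ ⊗ id : B ⊗ B → (B ⊗ B) ⊗ B`. -/
noncomputable def comulId : B ⊗[k] B →ₐ[k] (B ⊗[k] B) ⊗[k] B :=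
  Algebra.TensorProduct.map (Bialgebra.comulAlgHom k B) (AlgHom.id k B)

/-- `id ⊗ Δ : B ⊗ B → B ⊗ (B ⊗ B) ≅ (B ⊗ B) ⊗ B`. -/
noncomputable def idComul : B ⊗[k] B →ₐ[k] (B ⊗[k] B) ⊗[k] B :=
  (Algebra.TensorProduct.assoc k k k B B B).symm.toAlgHom.comp
    (Algebra.TensorProduct.map (AlgHom.id k B) (Bialgebra.comulAlgHom k B))

/-- `F ↦ F ⊗ 1`, `B ⊗ B → (B ⊗ B) ⊗ B`. -/
noncomputable def tensorOne : B ⊗[k] B →ₐ[k] (B ⊗[k] B) ⊗[k] B :=
  Algebra.TensorProduct.includeLeft

/-- `F ↦ 1 ⊗ F`, `B ⊗ B → B ⊗ (B ⊗ B) ≅ (B ⊗ B) ⊗ B`. -/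
noncomputable def oneTensor : B ⊗[k] B →ₐ[k] (B ⊗[k] B) ⊗[k] B :=
  (Algebra.TensorProduct.assoc k k k B B B).symm.toAlgHom.comp
    Algebra.TensorProduct.includeRight

/-- `ε ⊗ id : B ⊗ B → k ⊗ B ≅ B`. -/
noncomputable def counitId : B ⊗[k] B →ₐ[k] B :=
  (Algebra.TensorProduct.lid k B).toAlgHom.comp
    (Algebra.TensorProduct.map (Bialgebra.counitAlgHom k B) (AlgHom.id k B))

/-- `id ⊗ ε : B ⊗ B → B ⊗ k ≅ B`. -/
noncomputable def idCounit : B ⊗[k] B →ₐ[k] B :=
  (Algebra.TensorProduct.rid k k B).toAlgHom.comp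
    (Algebra.TensorProduct.map (AlgHom.id k B) (Bialgebra.counitAlgHom k B))

/-- Extension of scalars of an algebra homomorphism from `k` to `R`. -/
noncomputable def ext {C D : Type*} [Ring C] [Algebra k C] [Ring D] [Algebra k D]
    (f : C →ₐ[k] D) : R ⊗[k] C →ₐ[R] R ⊗[k] D :=
  Algebra.TensorProduct.map (AlgHom.id R R) f

variable {k R B A}

/-- `F` in `R ⊗ (B ⊗ B)` is a universal deformation formula over `R` based on `B`. -/
structure IsUDF (I : Ideal R) (F : R ⊗[k] (B ⊗[k] B)) : Prop where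
  twist : ext k R (comulId k B) F * ext k R (tensorOne k B) F =
    ext k R (idComul k B) F * ext k R (oneTensor k B) F
  counit_left : ext k R (counitId k B) F = 1
  counit_right : ext k R (idCounit k B) F = 1
  reduces : F - 1 ∈ I • (⊤ : Submodule R (R ⊗[k] (B ⊗[k] B)))

/-- `m` is the multiplication `a * a' = μ(F(a ⊗ a'))`, extended `R`-bilinearly. -/
def IsTwisted (act : ModuleAlgebra k B A) (F : R ⊗[k] (B ⊗[k] B)) (m : Mult k R A) : Prop :=
  ∀ a a' : A, m (1 ⊗ₜ a) (1 ⊗ₜ a') =
    (pairAct act.act.toLinearMap a a').lTensor R F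

end Bialgebras

/-- The deformation `m` of `A` comes (up to equivalence) from a universal deformation formula over
`R` based on some bialgebra in the universe `w`. -/
def ComesFromUDF (k : Type u) [Field k] (R : Type u) [CommRing R] [Algebra k R] (I : Ideal R)
    (A : Type v) [Ring A] [Algebra k A] (m : Mult k R A) : Prop :=
  ∃ (B : Type w) (_ : Ring B) (_ : Bialgebra k B) (act : ModuleAlgebra k B A)
    (F : R ⊗[k] (B ⊗[k] B)), IsUDF I F ∧
    ∃ m' : Mult k R A, IsTwisted act F m' ∧ Equivalent I m m'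

end Q12.UDF
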