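import Mathlib
import Pool.Agent.Q12.UDF.Defs

open scoped TensorProduct Polynomial

namespace Q12.UDF

universe u v w

/-! ### The functional -/

open Classical in
/-- The functional on polynomials summing the coefficients at the exponents `2 * 4 ^ m`. -/
noncomputable def theta (k : Type u) [Field k] : k[X] →ₗ[k] k :=
  Polynomial.lsum (fun n => if ∃ m, n = 2 * 4 ^ m then (LinearMap.id : k →ₗ[k] k) else 0)

lemma pow_four_lt {i j m : ℕ} (h : i < j) (e : 4 ^ i + 4 ^ j = 2 * 4 ^ m) : False := by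
  have h1 : (4 : ℕ) ^ i < 4 ^ j := Nat.pow_lt_pow_right (by norm_num) h
  have h2 : (4 : ℕ) ^ m < 4 ^ j := by omega
  have h3 : m < j := (Nat.pow_lt_pow_iff_right (by norm_num)).1 h2
  obtain ⟨j', rfl⟩ : ∃ j', j = j' + 1 := ⟨j - 1, by omega⟩
  have h4 : (4 : ℕ) ^ m ≤ 4 ^ j' := Nat.pow_le_pow_right (by norm_num) (by omega)
  have h5 : (4 : ℕ) ^ (j' + 1) = 4 * 4 ^ j' := by rw [pow_succ]; ring
  have h6 : 0 < (4 : ℕ) ^ i := by positivity
  omega

lemma theta_pow (k : Type u) [Field k] (i j : ℕ) :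
    theta k (Polynomial.X ^ (4 ^ i) * Polynomial.X ^ (4 ^ j)) = if i = j then 1 else 0 := by
  classical
  rw [← pow_add, theta, Polynomial.lsum_apply, ← Polynomial.monomial_one_right_eq_X_pow,
    Polynomial.sum_monomial_index]
  · by_cases h : i = j
    · subst h
      rw [if_pos ⟨i, by ring⟩, if_pos rfl]
      rfl
    · rw [if_neg h, if_neg]
      · rfl
      · rintro ⟨m, hm⟩
        rcases lt_or_gt_of_ne h with h1 | h1
        · exact pow_four_lt h1 hm
        · rw [add_comm] at hm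
          exact pow_four_lt h1 hm
  · simp

/-! ### Finite rank -/

/-- A matrix indexed by the natural numbers has finite rank. -/
def FR {k : Type u} [Field k] (T : ℕ → ℕ → k) : Prop :=
  ∃ (n : ℕ) (α β : Fin n → ℕ → k), ∀ i j, T i j = ∑ l, α l i * β l j

lemma FR.add {k : Type u} [Field k] {T T' : ℕ → ℕ → k} (h : FR T) (h' : FR T') :
    FR (fun i j => T i j + T' i j) := by
  obtain ⟨n, α, β, hT⟩ := h
  obtain ⟨n', α', β', hT'⟩ := h'
  refine ⟨n + n', Fin.append α α', Fin.append β β', fun i j => ?_⟩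
  rw [Fin.sum_univ_add]
  simp only [Fin.append_left, Fin.append_right]
  rw [hT, hT']

lemma FR.zero {k : Type u} [Field k] : FR (fun _ _ => (0 : k)) :=
  ⟨0, fun _ _ => 0, fun _ _ => 0, fun _ _ => by simp⟩

lemma FR.single {k : Type u} [Field k] (α β : ℕ → k) : FR (fun i j => α i * β j) :=
  ⟨1, fun _ => α, fun _ => β, fun _ _ => by simp⟩

lemma not_FR_one {k : Type u} [Field k] : ¬ FR (fun i j : ℕ => if i = j then (1 : k) else 0) := by
  rintro ⟨n, α, β, h⟩
  have h1 : (1 : Matrix (Fin (n + 1)) (Fin (n + 1)) k) =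
      (Matrix.of fun (i : Fin (n + 1)) (l : Fin n) => α l i) *
        (Matrix.of fun (l : Fin n) (j : Fin (n + 1)) => β l j) := by
    ext i j
    rw [Matrix.mul_apply]
    simp only [Matrix.of_apply]
    rw [← h, Matrix.one_apply]
    simp only [Fin.ext_iff]
  have h2 := congrArg Matrix.rank h1
  rw [Matrix.rank_one] at h2
  have h3 := Matrix.rank_mul_le_left (Matrix.of fun (i : Fin (n + 1)) (l : Fin n) => α l i)
    (Matrix.of fun (l : Fin n) (j : Fin (n + 1)) => β l j)
  have h4 := Matrix.rank_le_width (Matrix.of fun (i : Fin (n + 1)) (l : Fin n) => α l i)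
  rw [← h2, Fintype.card_fin] at h3
  omega

/-! ### The algebra -/

section Alg

variable (k : Type u) [Field k]

/-- 4 × 4 matrices over `k[X]`. -/
abbrev Mat : Type u := Matrix (Fin 4) (Fin 4) k[X]

/-- generator `y` -/
noncomputable def gY : Mat k := Matrix.single 1 1 Polynomial.X + Matrix.single 2 2 Polynomial.X
/-- generator `x` -/
noncomputable def gX : Mat k := Matrix.single 0 1 1
/-- generator `z` -/
noncomputable def gZ : Mat k := Matrix.single 2 3 1
/-- generator `p` -/
noncomputable def gP : Mat k := Matrix.single 0 3 1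

/-- The algebra, generated by four matrices. -/
noncomputable def A : Subalgebra k (Mat k) := Algebra.adjoin k {gY k, gX k, gZ k, gP k}

/-- The shape of the elements of the algebra. -/
structure Shape (M : Mat k) : Prop where
  diag : ∃ a : k, M 0 0 = Polynomial.C a ∧ M 3 3 = Polynomial.C a
  corner : ∃ p : k, M 0 3 = Polynomial.C p
  mid : M 1 1 = M 2 2
  z10 : M 1 0 = 0
  z20 : M 2 0 = 0
  z30 : M 3 0 = 0
  z02 : M 0 2 = 0
  z12 : M 1 2 = 0
  z13 : M 1 3 = 0
  z21 : M 2 1 = 0
  z31 : M 3 1 = 0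
  z32 : M 3 2 = 0

variable {k}

lemma shape_mul {M N : Mat k} (hM : Shape k M) (hN : Shape k N) : Shape k (M * N) := by
  obtain ⟨⟨a, ha, ha'⟩, ⟨p, hp⟩, m1, m2, m3, m4, m5, m6, m7, m8, m9, m10⟩ := hM
  obtain ⟨⟨b, hb, hb'⟩, ⟨q, hq⟩, n1, n2, n3, n4, n5, n6, n7, n8, n9, n10⟩ := hN
  refine ⟨⟨a * b, ?_, ?_⟩, ⟨a * q + p * b, ?_⟩, ?_, ?_, ?_, ?_, ?_, ?_, ?_, ?_, ?_, ?_⟩ <;>
  simp only [Matrix.mul_apply, Fin.sum_univ_four, ha, ha', hp, m1, m2, m3, m4, m5, m6, m7, m8, m9,
    m10, hb, hb', hq, n1, n2, n3, n4, n5, n6, n7, n8, n9, n10, mul_zero, zero_mul, add_zero,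
    zero_add, Polynomial.C_mul, Polynomial.C_add]

lemma shape_add {M N : Mat k} (hM : Shape k M) (hN : Shape k N) : Shape k (M + N) := by
  obtain ⟨⟨a, ha, ha'⟩, ⟨p, hp⟩, m1, m2, m3, m4, m5, m6, m7, m8, m9, m10⟩ := hM
  obtain ⟨⟨b, hb, hb'⟩, ⟨q, hq⟩, n1, n2, n3, n4, n5, n6, n7, n8, n9, n10⟩ := hN
  refine ⟨⟨a + b, ?_, ?_⟩, ⟨p + q, ?_⟩, ?_, ?_, ?_, ?_, ?_, ?_, ?_, ?_, ?_, ?_⟩ <;>
  simp only [Matrix.add_apply, ha, ha', hp, m1, m2, m3, m4, m5, m6, m7, m8, m9,
    m10, hb, hb', hq, n1, n2, n3, n4, n5, n6, n7, n8, n9, n10, add_zero, Polynomial.C_add]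

lemma shape_algebraMap (r : k) : Shape k (algebraMap k (Mat k) r) := by
  have h : ∀ i j : Fin 4, algebraMap k (Mat k) r i j = if i = j then Polynomial.C r else 0 := by
    intro i j
    rw [Matrix.algebraMap_matrix_apply]
    rfl
  refine ⟨⟨r, ?_, ?_⟩, ⟨0, ?_⟩, ?_, ?_, ?_, ?_, ?_, ?_, ?_, ?_, ?_, ?_⟩ <;>
  rw [h] <;> simp [h]

lemma shape_A (M : A k) : Shape k (M : Mat k) := by
  obtain ⟨M, hM⟩ := M
  refine Algebra.adjoin_induction (p := fun M _ => Shape k M) ?_ ?_ ?_ ?_ hM
  · intro x hx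
    simp only [Set.mem_insert_iff, Set.mem_singleton_iff] at hx
    rcases hx with rfl | rfl | rfl | rfl
    · refine ⟨⟨0, ?_, ?_⟩, ⟨0, ?_⟩, ?_, ?_, ?_, ?_, ?_, ?_, ?_, ?_, ?_, ?_⟩ <;>
      simp [gY, Matrix.single, Matrix.add_apply]
    · refine ⟨⟨0, ?_, ?_⟩, ⟨0, ?_⟩, ?_, ?_, ?_, ?_, ?_, ?_, ?_, ?_, ?_, ?_⟩ <;>
      simp [gX, Matrix.single]
    · refine ⟨⟨0, ?_, ?_⟩, ⟨0, ?_⟩, ?_, ?_, ?_, ?_, ?_, ?_, ?_, ?_, ?_, ?_⟩ <;>
      simp [gZ, Matrix.single]
    · refine ⟨⟨0, ?_, ?_⟩, ⟨1, ?_⟩, ?_, ?_, ?_, ?_, ?_, ?_, ?_, ?_, ?_, ?_⟩ <;>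
      simp [gP, Matrix.single]
  · intro r
    exact shape_algebraMap r
  · intro x y _ _ hx hy
    exact shape_add hx hy
  · intro x y _ _ hx hy
    exact shape_mul hx hy

variable (k)

instance : Algebra.FiniteType k (A k) := by
  classical
  rw [← Subalgebra.fg_iff_finiteType]
  refine ⟨{gY k, gX k, gZ k, gP k}, ?_⟩
  simp [A]

lemma gY_mem : gY k ∈ A k := Algebra.subset_adjoin (by simp)
lemma gX_mem : gX k ∈ A k := Algebra.subset_adjoin (by simp)
lemma gZ_mem : gZ k ∈ A k := Algebra.subset_adjoin (by simp)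
lemma gP_mem : gP k ∈ A k := Algebra.subset_adjoin (by simp)

/-- The element `p` of the algebra. -/
noncomputable def P : A k := ⟨gP k, gP_mem k⟩

lemma xy_mem (n : ℕ) : Matrix.single 0 1 (Polynomial.X ^ n) ∈ A k := by
  induction n with
  | zero => rw [pow_zero]; exact gX_mem k
  | succ n ih =>
    have : (Matrix.single 0 1 (Polynomial.X ^ (n + 1)) : Mat k) =
        Matrix.single 0 1 (Polynomial.X ^ n) * gY k := by
      rw [gY, mul_add, Matrix.single_mul_single_same,
        Matrix.single_mul_single_of_ne _ _ _ _ (by decide), add_zero, pow_succ]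
    rw [this]
    exact (A k).mul_mem ih (gY_mem k)

lemma yz_mem (n : ℕ) : Matrix.single 2 3 (Polynomial.X ^ n) ∈ A k := by
  induction n with
  | zero => rw [pow_zero]; exact gZ_mem k
  | succ n ih =>
    have : (Matrix.single 2 3 (Polynomial.X ^ (n + 1)) : Mat k) =
        gY k * Matrix.single 2 3 (Polynomial.X ^ n) := by
      rw [gY, add_mul, Matrix.single_mul_single_same,
        Matrix.single_mul_single_of_ne _ _ _ _ (by decide), zero_add, pow_succ']
    rw [this]
    exact (A k).mul_mem (gY_mem k) ih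

/-- `x y ^ n` -/
noncomputable def xy (n : ℕ) : A k := ⟨_, xy_mem k n⟩

/-- `y ^ n z` -/
noncomputable def yz (n : ℕ) : A k := ⟨_, yz_mem k n⟩

lemma xy_mul_yz (n m : ℕ) : xy k n * yz k m = 0 := by
  apply Subtype.ext
  show Matrix.single 0 1 (Polynomial.X ^ n) * Matrix.single 2 3 (Polynomial.X ^ m) = 0
  rw [Matrix.single_mul_single_of_ne _ _ _ _ (by decide)]

/-- The two-cocycle. -/
noncomputable def mu1 : A k →ₗ[k] A k →ₗ[k] A k :=
  LinearMap.mk₂ k (fun M N => theta k ((M : Mat k) 0 1 * (N : Mat k) 2 3) • P k)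
    (by intro M M' N
        simp only [Subalgebra.coe_add, Matrix.add_apply, add_mul, map_add, add_smul])
    (by intro c M N
        simp only [Subalgebra.coe_smul, Matrix.smul_apply, smul_mul_assoc, map_smul, smul_assoc])
    (by intro M N N'
        simp only [Subalgebra.coe_add, Matrix.add_apply, mul_add, map_add, add_smul])
    (by intro c M N
        simp only [Subalgebra.coe_smul, Matrix.smul_apply, mul_smul_comm, map_smul, smul_assoc])

lemma mu1_apply (M N : A k) :
    mu1 k M N = theta k ((M : Mat k) 0 1 * (N : Mat k) 2 3) • P k := rfl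

variable {k}

lemma mul_P (M : A k) {a : k} (h : (M : Mat k) 0 0 = Polynomial.C a) : M * P k = a • P k := by
  have hs := shape_A M
  apply Subtype.ext
  show (M : Mat k) * Matrix.single 0 3 1 = a • Matrix.single 0 3 1
  ext i j : 2
  fin_cases i <;> fin_cases j <;>
  simp [Matrix.mul_apply, Matrix.single, hs.z10, hs.z20, hs.z30, h,
    Polynomial.smul_eq_C_mul]

lemma P_mul (M : A k) {a : k} (h : (M : Mat k) 3 3 = Polynomial.C a) : P k * M = a • P k := by
  have hs := shape_A M
  apply Subtype.ext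
  show Matrix.single 0 3 1 * (M : Mat k) = a • Matrix.single 0 3 1
  ext i j : 2
  fin_cases i <;> fin_cases j <;>
  simp [Matrix.mul_apply, Matrix.single, hs.z31, hs.z32, hs.z30, h,
    Polynomial.smul_eq_C_mul]

lemma mu1_cocycle (M N L : A k) :
    mu1 k (M * N) L + mu1 k M N * L = mu1 k M (N * L) + M * mu1 k N L := by
  have hM := shape_A M
  have hN := shape_A N
  have hL := shape_A L
  obtain ⟨a, ha, ha'⟩ := hM.diag
  obtain ⟨b, hb, hb'⟩ := hL.diag
  simp only [mu1_apply]
  rw [smul_mul_assoc, P_mul L hb', mul_smul_comm, mul_P M ha, smul_smul, smul_smul, ← add_smul,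
    ← add_smul]
  congr 1
  have e1 : ((M * N : A k) : Mat k) 0 1 =
      Polynomial.C a * (N : Mat k) 0 1 + (M : Mat k) 0 1 * (N : Mat k) 1 1 := by
    rw [Subalgebra.coe_mul, Matrix.mul_apply, Fin.sum_univ_four, ha, hM.z02, hN.z31]
    ring
  have e2 : ((N * L : A k) : Mat k) 2 3 =
      (N : Mat k) 1 1 * (L : Mat k) 2 3 + (N : Mat k) 2 3 * Polynomial.C b := by
    rw [Subalgebra.coe_mul, Matrix.mul_apply, Fin.sum_univ_four, hb', hN.z20, hN.z21, hN.mid]
    ring
  rw [e1, e2]
  have e3 : (Polynomial.C a * (N : Mat k) 0 1 + (M : Mat k) 0 1 * (N : Mat k) 1 1) *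
      (L : Mat k) 2 3 = a • ((N : Mat k) 0 1 * (L : Mat k) 2 3) +
        (M : Mat k) 0 1 * (N : Mat k) 1 1 * (L : Mat k) 2 3 := by
    rw [Polynomial.smul_eq_C_mul]; ring
  have e4 : (M : Mat k) 0 1 * ((N : Mat k) 1 1 * (L : Mat k) 2 3 +
      (N : Mat k) 2 3 * Polynomial.C b) = (M : Mat k) 0 1 * (N : Mat k) 1 1 * (L : Mat k) 2 3 +
        b • ((M : Mat k) 0 1 * (N : Mat k) 2 3) := by
    rw [Polynomial.smul_eq_C_mul]; ring
  rw [e3, e4, map_add, map_add, map_smul, map_smul, smul_eq_mul, smul_eq_mul]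
  ring

lemma mu1_P_left (c : k) (M : A k) : mu1 k (c • P k) M = 0 := by
  rw [map_smul, LinearMap.smul_apply, mu1_apply]
  have : ((P k : A k) : Mat k) 0 1 = 0 := by
    show (Matrix.single 0 3 1 : Mat k) 0 1 = 0
    simp [Matrix.single]
  rw [this, zero_mul, map_zero, zero_smul, smul_zero]

lemma mu1_P_right (c : k) (M : A k) : mu1 k M (c • P k) = 0 := by
  rw [map_smul, mu1_apply]
  have : ((P k : A k) : Mat k) 2 3 = 0 := by
    show (Matrix.single 0 3 1 : Mat k) 2 3 = 0
    simp [Matrix.single]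
  rw [this, mul_zero, map_zero, zero_smul, smul_zero]

lemma mu1_mu1_left (M N L : A k) : mu1 k (mu1 k M N) L = 0 := by
  rw [mu1_apply k M N]; exact mu1_P_left _ _

lemma mu1_mu1_right (M N L : A k) : mu1 k M (mu1 k N L) = 0 := by
  rw [mu1_apply k N L]; exact mu1_P_right _ _

lemma mu1_one_left (M : A k) : mu1 k 1 M = 0 := by
  rw [mu1_apply]
  have : ((1 : A k) : Mat k) 0 1 = 0 := by
    show (1 : Mat k) 0 1 = 0
    simp
  rw [this, zero_mul, map_zero, zero_smul]

lemma mu1_one_right (M : A k) : mu1 k M 1 = 0 := by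
  rw [mu1_apply]
  have : ((1 : A k) : Mat k) 2 3 = 0 := by
    show (1 : Mat k) 2 3 = 0
    simp
  rw [this, mul_zero, map_zero, zero_smul]

end Alg

/-! ### The deformation -/

section Def

variable (k : Type u) [Field k] (R : Type u) [CommRing R] [Algebra k R]

/-- Base change of the cocycle. -/
noncomputable def M1 : Mult k R (A k) := LinearMap.BilinMap.baseChange R (mu1 k)

/-- The deformation. -/
noncomputable def m (e : R) : Mult k R (A k) :=
  LinearMap.mul R (R ⊗[k] A k) + e • M1 k R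

variable {k R}

lemma M1_tmul (r s : R) (a b : A k) :
    M1 k R (r ⊗ₜ a) (s ⊗ₜ b) = (r * s) ⊗ₜ mu1 k a b := rfl

lemma m_apply (e : R) (x y : R ⊗[k] A k) :
    m k R e x y = x * y + e • M1 k R x y := rfl

lemma M1_cocycle (x y z : R ⊗[k] A k) :
    M1 k R (x * y) z + M1 k R x y * z = M1 k R x (y * z) + x * M1 k R y z := by
  induction x using TensorProduct.induction_on with
  | zero => simp
  | add x₁ x₂ h₁ h₂ =>
    simp only [add_mul, map_add, LinearMap.add_apply]
    calc _ = (M1 k R (x₁ * y) z + M1 k R x₁ y * z) + (M1 k R (x₂ * y) z + M1 k R x₂ y * z) := by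
          abel
      _ = _ := by rw [h₁, h₂]; abel
  | tmul r a =>
    induction y using TensorProduct.induction_on with
    | zero => simp
    | add y₁ y₂ h₁ h₂ =>
      simp only [add_mul, mul_add, map_add, LinearMap.add_apply]
      calc _ = (M1 k R (r ⊗ₜ a * y₁) z + M1 k R (r ⊗ₜ a) y₁ * z) +
            (M1 k R (r ⊗ₜ a * y₂) z + M1 k R (r ⊗ₜ a) y₂ * z) := by abel
        _ = _ := by rw [h₁, h₂]; abel
    | tmul s b =>
      induction z using TensorProduct.induction_on with
      | zero => simp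
      | add z₁ z₂ h₁ h₂ =>
        simp only [mul_add, map_add]
        calc _ = (M1 k R (r ⊗ₜ a * s ⊗ₜ b) z₁ + M1 k R (r ⊗ₜ a) (s ⊗ₜ b) * z₁) +
              (M1 k R (r ⊗ₜ a * s ⊗ₜ b) z₂ + M1 k R (r ⊗ₜ a) (s ⊗ₜ b) * z₂) := by abel
          _ = _ := by rw [h₁, h₂]; abel
      | tmul t c =>
        simp only [Algebra.TensorProduct.tmul_mul_tmul, M1_tmul]
        rw [← mul_assoc, ← TensorProduct.tmul_add, ← TensorProduct.tmul_add, mu1_cocycle]

lemma M1_M1_left (x y z : R ⊗[k] A k) : M1 k R (M1 k R x y) z = 0 := by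
  induction x using TensorProduct.induction_on with
  | zero => simp
  | add x₁ x₂ h₁ h₂ => simp only [map_add, LinearMap.add_apply, h₁, h₂, add_zero]
  | tmul r a =>
    induction y using TensorProduct.induction_on with
    | zero => simp
    | add x₁ x₂ h₁ h₂ => simp only [map_add, LinearMap.add_apply, h₁, h₂, add_zero]
    | tmul s b =>
      induction z using TensorProduct.induction_on with
      | zero => simp
      | add x₁ x₂ h₁ h₂ => simp only [map_add, h₁, h₂, add_zero]
      | tmul t c => rw [M1_tmul, M1_tmul, mu1_mu1_left, TensorProduct.tmul_zero]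

lemma M1_M1_right (x y z : R ⊗[k] A k) : M1 k R x (M1 k R y z) = 0 := by
  induction x using TensorProduct.induction_on with
  | zero => simp
  | add x₁ x₂ h₁ h₂ => simp only [map_add, LinearMap.add_apply, h₁, h₂, add_zero]
  | tmul r a =>
    induction y using TensorProduct.induction_on with
    | zero => simp
    | add x₁ x₂ h₁ h₂ => simp only [map_add, LinearMap.add_apply, h₁, h₂, add_zero]
    | tmul s b =>
      induction z using TensorProduct.induction_on with
      | zero => simp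
      | add x₁ x₂ h₁ h₂ => simp only [map_add, h₁, h₂, add_zero]
      | tmul t c => rw [M1_tmul, M1_tmul, mu1_mu1_right, TensorProduct.tmul_zero]

lemma M1_one_left (x : R ⊗[k] A k) : M1 k R (1 ⊗ₜ 1) x = 0 := by
  induction x using TensorProduct.induction_on with
  | zero => simp
  | add x₁ x₂ h₁ h₂ => simp only [map_add, h₁, h₂, add_zero]
  | tmul r a => rw [M1_tmul, mu1_one_left, TensorProduct.tmul_zero]

lemma M1_one_right (x : R ⊗[k] A k) : M1 k R x (1 ⊗ₜ 1) = 0 := by
  induction x using TensorProduct.induction_on with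
  | zero => simp
  | add x₁ x₂ h₁ h₂ => simp only [map_add, LinearMap.add_apply, h₁, h₂, add_zero]
  | tmul r a => rw [M1_tmul, mu1_one_right, TensorProduct.tmul_zero]

theorem m_isDeformation (e : R) : IsDeformation (Ideal.span {e}) (m k R e) := by
  refine ⟨?_, ?_, ?_, ?_⟩
  · intro x y z
    simp only [m_apply]
    rw [add_mul, mul_add, map_add, LinearMap.add_apply, map_smul, LinearMap.smul_apply, M1_M1_left,
      smul_zero, add_zero, map_add, map_smul, M1_M1_right, smul_zero, add_zero, mul_assoc,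
      smul_mul_assoc, mul_smul_comm, add_assoc, add_assoc, ← smul_add, ← smul_add,
      add_comm (M1 k R x y * z), M1_cocycle, add_comm (M1 k R x (y * z))]
  · intro x
    rw [m_apply, M1_one_left, smul_zero, add_zero]
    exact one_mul x
  · intro x
    rw [m_apply, M1_one_right, smul_zero, add_zero]
    exact mul_one x
  · intro a b
    rw [m_apply, Algebra.TensorProduct.tmul_mul_tmul, one_mul, add_sub_cancel_left]
    exact Submodule.smul_mem_smul (Ideal.mem_span_singleton_self _) trivial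

end Def

/-! ### First order expansion -/

section Expand

variable {k : Type u} [Field k] {R : Type u} [CommRing R] [Algebra k R]

/-- The coordinates of an algebra isomorphic to the dual numbers. -/
structure Dual (k : Type u) [Field k] (R : Type u) [CommRing R] [Algebra k R] where
  /-- the infinitesimal -/
  e : R
  /-- first coordinate -/
  f0 : R →ₗ[k] k
  /-- second coordinate -/
  f1 : R →ₗ[k] k
  f0_one : f0 1 = 1
  f1_one : f1 1 = 0
  f0_mul : ∀ r s, f0 (r * s) = f0 r * f0 s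
  f1_mul : ∀ r s, f1 (r * s) = f0 r * f1 s + f1 r * f0 s
  f0_e : f0 e = 0
  f1_e : f1 e = 1
  repr : ∀ r, r = f0 r • 1 + f1 r • e

variable {V : Type v} [AddCommGroup V] [Module k V]

/-- coordinate map on `R ⊗ V` -/
noncomputable def pr (g : R →ₗ[k] k) : R ⊗[k] V →ₗ[k] V :=
  (TensorProduct.lid k V).toLinearMap ∘ₗ g.rTensor V

lemma pr_tmul (g : R →ₗ[k] k) (r : R) (x : V) : pr g (r ⊗ₜ[k] x) = g r • x := by
  simp [pr]

lemma pr_lTensor {W : Type w} [AddCommGroup W] [Module k W] (g : R →ₗ[k] k) (f : V →ₗ[k] W)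
    (t : R ⊗[k] V) : pr g (f.lTensor R t) = f (pr g t) := by
  induction t using TensorProduct.induction_on with
  | zero => simp
  | add x y hx hy => simp only [map_add, hx, hy]
  | tmul r x => rw [LinearMap.lTensor_tmul, pr_tmul, pr_tmul, map_smul]

lemma pr0_smul (d : Dual k R) (s : R) (t : R ⊗[k] V) :
    pr d.f0 (s • t) = d.f0 s • pr d.f0 t := by
  induction t using TensorProduct.induction_on with
  | zero => simp
  | add x y hx hy => simp only [smul_add, map_add, hx, hy]
  | tmul r x => rw [TensorProduct.smul_tmul', pr_tmul, pr_tmul, smul_eq_mul, d.f0_mul, mul_smul]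

lemma pr1_smul (d : Dual k R) (s : R) (t : R ⊗[k] V) :
    pr d.f1 (s • t) = d.f0 s • pr d.f1 t + d.f1 s • pr d.f0 t := by
  induction t using TensorProduct.induction_on with
  | zero => simp
  | add x y hx hy =>
    simp only [smul_add, map_add, hx, hy]
    abel
  | tmul r x =>
    rw [TensorProduct.smul_tmul', pr_tmul, pr_tmul, pr_tmul, smul_eq_mul, d.f1_mul, add_smul,
      mul_smul, mul_smul]

lemma pr_decomp (d : Dual k R) (t : R ⊗[k] V) :
    t = 1 ⊗ₜ pr d.f0 t + d.e • (1 ⊗ₜ pr d.f1 t) := by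
  induction t using TensorProduct.induction_on with
  | zero => simp
  | add x y hx hy =>
    simp only [map_add, TensorProduct.tmul_add, smul_add]
    conv_lhs => rw [hx, hy]
    abel
  | tmul r x =>
    rw [pr_tmul, pr_tmul, TensorProduct.smul_tmul', smul_eq_mul, mul_one]
    conv_lhs => rw [d.repr r]
    rw [TensorProduct.add_tmul, TensorProduct.smul_tmul, TensorProduct.smul_tmul]

lemma pr0_of_mem (d : Dual k R) {t : R ⊗[k] V}
    (h : t ∈ Ideal.span {d.e} • (⊤ : Submodule R (R ⊗[k] V))) : pr d.f0 t = 0 := by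
  refine Submodule.smul_induction_on h ?_ ?_
  · intro r hr n _
    obtain ⟨c, rfl⟩ := Ideal.mem_span_singleton'.1 hr
    rw [pr0_smul, d.f0_mul, d.f0_e, mul_zero, zero_smul]
  · intro x y hx hy
    rw [map_add, hx, hy, add_zero]

/-- The key identity. -/
lemma key {B : Type w} [Ring B] [Bialgebra k B] (d : Dual k R) (act : ModuleAlgebra k B (A k))
    (F : R ⊗[k] (B ⊗[k] B)) (hF : F - 1 ∈ Ideal.span {d.e} • (⊤ : Submodule R (R ⊗[k] (B ⊗[k] B))))
    (m' : Mult k R (A k)) (hm' : IsTwisted act F m')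
    (heq : Equivalent (Ideal.span {d.e}) (m k R d.e) m') :
    ∃ (h : A k →ₗ[k] A k) (G : B ⊗[k] B), ∀ a b : A k,
      h (a * b) + mu1 k a b = pairAct act.act.toLinearMap a b G + a * h b + h a * b := by
  obtain ⟨φ, hφ, hmul⟩ := heq
  let h : A k →ₗ[k] A k := (pr d.f1) ∘ₗ (φ.toLinearMap.restrictScalars k) ∘ₗ
    (TensorProduct.mk k R (A k) 1)
  have hh : ∀ a, h a = pr d.f1 (φ (1 ⊗ₜ a)) := fun a => rfl
  have h0 : ∀ x, pr d.f0 (φ x) = pr d.f0 x := by
    intro x
    have := pr0_of_mem d (hφ x)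
    rwa [map_sub, sub_eq_zero] at this
  have hdec : ∀ a : A k, φ (1 ⊗ₜ a) = 1 ⊗ₜ a + d.e • (1 ⊗ₜ h a) := by
    intro a
    conv_lhs => rw [pr_decomp d (φ (1 ⊗ₜ a))]
    rw [h0, pr_tmul, d.f0_one, one_smul, hh]
  have hF0 : pr d.f0 F = 1 := by
    have := pr0_of_mem d hF
    rw [map_sub, sub_eq_zero] at this
    rw [this, Algebra.TensorProduct.one_def, pr_tmul, d.f0_one, one_smul]
  have hm0 : ∀ a b : A k, pr d.f0 (m' (1 ⊗ₜ a) (1 ⊗ₜ b)) = a * b := by
    intro a b
    rw [hm', pr_lTensor, hF0, Algebra.TensorProduct.one_def]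
    simp [pairAct]
  refine ⟨h, pr d.f1 F, fun a b => ?_⟩
  have e1 : pr d.f1 (φ (m k R d.e (1 ⊗ₜ a) (1 ⊗ₜ b))) = h (a * b) + mu1 k a b := by
    rw [m_apply, Algebra.TensorProduct.tmul_mul_tmul, M1_tmul, one_mul, map_add, map_smul, map_add,
      pr1_smul, h0, pr_tmul, d.f0_e, d.f1_e, d.f0_one, zero_smul, zero_add, one_smul, one_smul, hh]
  have e2 : pr d.f1 (m' (φ (1 ⊗ₜ a)) (φ (1 ⊗ₜ b))) =
      pairAct act.act.toLinearMap a b (pr d.f1 F) + a * h b + h a * b := by
    rw [hdec a, hdec b]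
    simp only [map_add, LinearMap.add_apply, map_smul, LinearMap.smul_apply, smul_add]
    simp only [pr1_smul, pr0_smul, hm0, d.f0_e, d.f1_e, zero_smul, one_smul, zero_add, add_zero,
      smul_zero]
    rw [hm', pr_lTensor]
    abel
  rw [← e1, ← e2, hmul]

end Expand

/-! ### The corner entry -/

section Corner

variable {k : Type u} [Field k]

/-- The constant coefficient of the upper right entry. -/
noncomputable def corner : A k →ₗ[k] k where
  toFun M := ((M : Mat k) 0 3).coeff 0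
  map_add' M N := by simp
  map_smul' c M := by simp

lemma corner_apply (M : A k) : corner M = ((M : Mat k) 0 3).coeff 0 := rfl

lemma corner_mul (M N : A k) : corner (M * N) =
    ((M : Mat k) 0 0).coeff 0 * ((N : Mat k) 0 3).coeff 0 +
      ((M : Mat k) 0 3).coeff 0 * ((N : Mat k) 3 3).coeff 0 := by
  have hM := shape_A M
  have hN := shape_A N
  rw [corner_apply, Subalgebra.coe_mul, Matrix.mul_apply, Fin.sum_univ_four, hM.z02, hN.z13,
    mul_zero, zero_mul, add_zero, add_zero, Polynomial.coeff_add, Polynomial.mul_coeff_zero,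
    Polynomial.mul_coeff_zero]

lemma corner_smul_P (c : k) : corner (c • P k) = c := by
  rw [map_smul, corner_apply]
  show c • ((Matrix.single 0 3 1 : Mat k) 0 3).coeff 0 = c
  simp [Matrix.single]

lemma corner_xy_mul (n : ℕ) (H : A k) : corner (xy k n * H) = 0 := by
  have hH := shape_A H
  rw [corner_mul]
  have h1 : ((xy k n : A k) : Mat k) 0 0 = 0 := by
    show (Matrix.single 0 1 (Polynomial.X ^ n) : Mat k) 0 0 = 0
    simp [Matrix.single]
  have h2 : ((xy k n : A k) : Mat k) 0 3 = 0 := by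
    show (Matrix.single 0 1 (Polynomial.X ^ n) : Mat k) 0 3 = 0
    simp [Matrix.single]
  rw [h1, h2]
  simp

lemma corner_mul_yz (n : ℕ) (H : A k) : corner (H * yz k n) = 0 := by
  rw [corner_mul]
  have h1 : ((yz k n : A k) : Mat k) 0 3 = 0 := by
    show (Matrix.single 2 3 (Polynomial.X ^ n) : Mat k) 0 3 = 0
    simp [Matrix.single]
  have h2 : ((yz k n : A k) : Mat k) 3 3 = 0 := by
    show (Matrix.single 2 3 (Polynomial.X ^ n) : Mat k) 3 3 = 0
    simp [Matrix.single]
  rw [h1, h2]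
  simp

lemma mu1_xy_yz (n l : ℕ) : mu1 k (xy k n) (yz k l) =
    theta k (Polynomial.X ^ n * Polynomial.X ^ l) • P k := by
  rw [mu1_apply]
  congr 2

lemma FR_pairAct {B : Type w} [Ring B] [Bialgebra k B] (act : B →ₗ[k] Module.End k (A k))
    (G : B ⊗[k] B) : FR (fun i j => corner (pairAct act (xy k (4 ^ i)) (yz k (4 ^ j)) G)) := by
  induction G using TensorProduct.induction_on with
  | zero =>
    simp only [map_zero]
    exact FR.zero
  | add x y hx hy =>
    simp only [map_add]
    exact hx.add hy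
  | tmul b c =>
    have h : (fun i j => corner (pairAct act (xy k (4 ^ i)) (yz k (4 ^ j)) (b ⊗ₜ c))) =
        fun i j => ((act b (xy k (4 ^ i)) : A k) : Mat k) 0 0 |>.coeff 0 |>
          (· * (((act c (yz k (4 ^ j)) : A k) : Mat k) 0 3).coeff 0) |>
          (· + (((act b (xy k (4 ^ i)) : A k) : Mat k) 0 3).coeff 0 *
            (((act c (yz k (4 ^ j)) : A k) : Mat k) 3 3).coeff 0) := by
      funext i j
      exact corner_mul _ _
    rw [h]
    exact (FR.single _ _).add (FR.single _ _)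

/-- The deformation does not come from a universal deformation formula. -/
theorem not_comesFromUDF {R : Type u} [CommRing R] [Algebra k R] (d : Dual k R) :
    ¬ ComesFromUDF.{u, u, w} k R (Ideal.span {d.e}) (A k) (m k R d.e) := by
  rintro ⟨B, _, _, act, F, hF, m', hm', heq⟩
  obtain ⟨h, G, hG⟩ := key d act F hF.reduces m' hm' heq
  apply not_FR_one (k := k)
  have := FR_pairAct act.act.toLinearMap G
  convert this using 3 with i j
  have e := congrArg corner (hG (xy k (4 ^ i)) (yz k (4 ^ j)))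
  rw [xy_mul_yz, map_zero, zero_add, mu1_xy_yz, corner_smul_P, theta_pow, map_add, map_add,
    corner_xy_mul, corner_mul_yz, add_zero, add_zero] at e
  exact e

end Corner

/-- The dual numbers. -/
noncomputable def dualNumber (k : Type u) [Field k] : Dual k (DualNumber k) where
  e := DualNumber.eps
  f0 := (TrivSqZeroExt.fstHom k k k).toLinearMap
  f1 := TrivSqZeroExt.sndHom k k
  f0_one := by simp
  f1_one := by simp
  f0_mul := by intro r s; simp
  f1_mul := by
    intro r s
    simp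
  f0_e := by simp
  f1_e := by simp
  repr := by
    intro r
    ext <;> simp

theorem main (k : Type u) [Field k] :
    Algebra.FiniteType k (A k) ∧
      IsDeformation (Ideal.span {(DualNumber.eps : DualNumber k)})
        (m k (DualNumber k) DualNumber.eps) ∧
      ¬ ComesFromUDF.{u, u, w} k (DualNumber k) (Ideal.span {(DualNumber.eps : DualNumber k)})
        (A k) (m k (DualNumber k) DualNumber.eps) :=
  ⟨inferInstance, m_isDeformation _, not_comesFromUDF (dualNumber k)⟩

end Q12.UDF
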